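import Pool.Agent.Y714.KF.Stm

set_option autoImplicit false

/-! Representatives of the ideal classes. -/

namespace Pool.Agent.Y988.KF

open NumberField FractionalIdeal Module Pool.Agent.Y714.KF
open scoped nonZeroDivisors

section

variable (K : Type) [Field K] [NumberField K]

/-- CLS: representatives of the ideal classes -/
theorem cls : S_CLS K := by
  classical
  obtain ⟨H, hH⟩ : ∃ H : Subgroup (FI K)ˣ, H = (toPrincipalIdeal (𝓞 K) K).range := ⟨_, rfl⟩
  have hfin : Finite ((FI K)ˣ ⧸ H) := by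
    rw [hH]
    exact Finite.of_equiv _ (ClassGroup.equiv K).toEquiv
  have := Fintype.ofFinite ((FI K)ˣ ⧸ H)
  have hmem : ∀ I I' : (FI K)ˣ, (I : (FI K)ˣ ⧸ H) = (I' : (FI K)ˣ ⧸ H) ↔
      ∃ x : K, x ≠ 0 ∧ (I : FI K) = sp x * (I' : FI K) := by
    intro I I'
    rw [eq_comm, QuotientGroup.eq, hH, MonoidHom.mem_range]
    constructor
    · rintro ⟨x, hx⟩
      refine ⟨x, x.ne_zero, ?_⟩
      have h1 := congrArg (fun u : (FI K)ˣ => (u : FI K)) hx
      simp only [coe_toPrincipalIdeal, Units.val_mul] at h1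
      rw [sp, h1, mul_comm, ← mul_assoc, Units.mul_inv, one_mul]
    · rintro ⟨x, hx, h⟩
      refine ⟨Units.mk0 x hx, ?_⟩
      ext1
      rw [coe_toPrincipalIdeal, Units.val_mul, h, Units.val_mk0, mul_comm (sp x), ← mul_assoc,
        Units.inv_mul, one_mul]
  refine ⟨Finset.univ.image fun c : (FI K)ˣ ⧸ H => c.out, ?_, ?_⟩
  · intro I
    refine ⟨(I : (FI K)ˣ ⧸ H).out, Finset.mem_image_of_mem _ (Finset.mem_univ _), ?_⟩
    rw [← hmem, QuotientGroup.out_eq']
  · intro r hr r' hr' x hx h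
    rw [Finset.mem_image] at hr hr'
    obtain ⟨c, _, rfl⟩ := hr
    obtain ⟨c', _, rfl⟩ := hr'
    have h1 := (hmem c.out c'.out).2 ⟨x, hx, h⟩
    rw [QuotientGroup.out_eq', QuotientGroup.out_eq'] at h1
    rw [h1]

end

end Pool.Agent.Y988.KF
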