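import Pool.Agent.Y714.KF.Stm

set_option autoImplicit false

/-! The ideals between `p I` and `I`. -/

namespace Pool.Agent.Y988.KF

open NumberField FractionalIdeal Module Pool.Agent.Y714.KF UniqueFactorizationMonoid
open scoped nonZeroDivisors

section

variable {K : Type} [Field K] [NumberField K]

theorem span_ne {p : ℕ} (hp : p.Prime) : Ideal.span {(p : 𝓞 K)} ≠ ⊥ := by
  rw [Ne, Ideal.span_singleton_eq_bot]
  exact_mod_cast hp.ne_zero

theorem norm_span (p : ℕ) : Ideal.absNorm (Ideal.span {(p : 𝓞 K)}) = p ^ finrank ℚ K := by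
  rw [Ideal.absNorm_span_singleton]
  have h7 : ((p : 𝓞 K)) = algebraMap ℤ (𝓞 K) (p : ℤ) := by simp
  rw [h7, Algebra.norm_algebraMap, Int.natAbs_pow, Int.natAbs_natCast, RingOfIntegers.rank]

theorem card_factors {p : ℕ} (hp : p.Prime) :
    (normalizedFactors (Ideal.span {(p : 𝓞 K)})).card ≤ finrank ℚ K := by
  have key : ∀ s : Multiset (Ideal (𝓞 K)), (∀ q ∈ s, p ≤ Ideal.absNorm q) →
      p ^ s.card ≤ Ideal.absNorm s.prod := by
    intro s
    induction s using Multiset.induction_on with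
    | empty => simp
    | cons a s ih =>
      intro h
      rw [Multiset.card_cons, pow_succ', Multiset.prod_cons, map_mul]
      exact Nat.mul_le_mul (h a (Multiset.mem_cons_self a s))
        (ih fun q hq => h q (Multiset.mem_cons_of_mem hq))
  have h1 := key (normalizedFactors (Ideal.span {(p : 𝓞 K)})) (fun q hq => by
    have h2 : q ∣ Ideal.span {(p : 𝓞 K)} := dvd_of_mem_normalizedFactors hq
    have h3 : Ideal.absNorm q ∣ p ^ finrank ℚ K := by
      rw [← norm_span (K := K)]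
      exact map_dvd _ h2
    obtain ⟨m, _, hm'⟩ := (Nat.dvd_prime_pow hp).1 h3
    have h4 : Ideal.absNorm q ≠ 1 := by
      rw [Ne, Ideal.absNorm_eq_one_iff]
      intro h5
      have h6 := (prime_of_normalized_factor q hq).not_isUnit
      rw [h5, ← Ideal.one_eq_top] at h6
      exact h6 isUnit_one
    rw [hm'] at h4 ⊢
    have hm0 : m ≠ 0 := by
      rintro rfl
      exact h4 (pow_zero p)
    exact Nat.le_self_pow hm0 p)
  rw [Ideal.prod_normalizedFactors_eq_self (span_ne hp), norm_span] at h1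
  exact (Nat.pow_le_pow_iff_right hp.one_lt).1 h1

theorem div_span {p : ℕ} (hp : p.Prime) :
    {L : Ideal (𝓞 K) | L ∣ Ideal.span {(p : 𝓞 K)}}.Finite ∧
    {L : Ideal (𝓞 K) | L ∣ Ideal.span {(p : 𝓞 K)}}.ncard ≤ 2 ^ finrank ℚ K := by
  classical
  obtain ⟨F, hF⟩ : ∃ F : Finset (Multiset (Ideal (𝓞 K))),
    F = (normalizedFactors (Ideal.span {(p : 𝓞 K)})).powerset.toFinset := ⟨_, rfl⟩
  have h0 : ∀ L ∈ {L : Ideal (𝓞 K) | L ∣ Ideal.span {(p : 𝓞 K)}}, L ≠ ⊥ := by
    rintro L hL rfl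
    exact span_ne hp (zero_dvd_iff.1 hL)
  have h1 : Set.MapsTo (fun L : Ideal (𝓞 K) => normalizedFactors L)
      {L : Ideal (𝓞 K) | L ∣ Ideal.span {(p : 𝓞 K)}} (F : Set (Multiset (Ideal (𝓞 K)))) := by
    intro L hL
    rw [hF, Finset.mem_coe, Multiset.mem_toFinset, Multiset.mem_powerset]
    exact (dvd_iff_normalizedFactors_le_normalizedFactors (h0 L hL) (span_ne hp)).1 hL
  have h2 : Set.InjOn (fun L : Ideal (𝓞 K) => normalizedFactors L)
      {L : Ideal (𝓞 K) | L ∣ Ideal.span {(p : 𝓞 K)}} := by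
    intro L hL L' hL' h
    have h3 := congrArg Multiset.prod h
    simp only at h3
    rwa [Ideal.prod_normalizedFactors_eq_self (h0 L hL),
      Ideal.prod_normalizedFactors_eq_self (h0 L' hL')] at h3
  have h3 : {L : Ideal (𝓞 K) | L ∣ Ideal.span {(p : 𝓞 K)}}.Finite :=
    Set.Finite.of_injOn h1 h2 F.finite_toSet
  refine ⟨h3, ?_⟩
  have h4 := Set.ncard_le_ncard_of_injOn _ h1 h2 F.finite_toSet
  rw [Set.ncard_coe_finset] at h4
  refine h4.trans ?_
  rw [hF]
  refine (Multiset.toFinset_card_le _).trans ?_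
  rw [Multiset.card_powerset]
  exact Nat.pow_le_pow_right (by norm_num) (card_factors hp)

variable (K) in
/-- DIV: the ideals between `p I` and `I` -/
theorem div : S_DIV K := by
  classical
  intro p hp I
  have hI : (I : FI K) ≠ 0 := I.ne_zero
  have hex : ∀ J : FI K, J ≤ I → ∃ L : Ideal (𝓞 K), (L : FI K) = (I : FI K)⁻¹ * J :=
    fun J hJ => exists_ideal (inv_mul_le_one hI hJ)
  choose! f hf using hex
  have h1 : Set.MapsTo f {J : FI K | sp (p : K) * (I : FI K) ≤ J ∧ J ≤ I}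
      {L : Ideal (𝓞 K) | L ∣ Ideal.span {(p : 𝓞 K)}} := by
    rintro J ⟨hJ1, hJ2⟩
    change f J ∣ _
    rw [Ideal.dvd_iff_le, ← coeIdeal_le_coeIdeal K, hf J hJ2, coeIdeal_span_singleton, map_natCast]
    calc sp (p : K) = (I : FI K)⁻¹ * (sp (p : K) * I) := by
          rw [mul_comm (sp (p : K)), ← mul_assoc, inv_mul_cancel₀ hI, one_mul]
      _ ≤ (I : FI K)⁻¹ * J := by gcongr
  have h2 : Set.InjOn f {J : FI K | sp (p : K) * (I : FI K) ≤ J ∧ J ≤ I} := by
    rintro J ⟨_, hJ2⟩ J' ⟨_, hJ2'⟩ h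
    have h3 := hf J hJ2
    rw [h, hf J' hJ2'] at h3
    have h4 := congrArg (fun x => (I : FI K) * x) h3
    simp only [← mul_assoc, mul_inv_cancel₀ hI, one_mul] at h4
    exact h4.symm
  obtain ⟨h3, h4⟩ := div_span (K := K) hp
  exact ⟨Set.Finite.of_injOn h1 h2 h3, (Set.ncard_le_ncard_of_injOn _ h1 h2 h3).trans h4⟩

end

end Pool.Agent.Y988.KF
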