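import Pool.Agent.Y714.KF.Stm

set_option autoImplicit false

/-! Products of densities are bounded below. -/

namespace Pool.Agent.Y988.KF

open Finset Pool.Agent.Y714.KF

theorem one_sub_le {a x : ℕ → ℝ} (T : Finset ℕ) (h : ∀ p ∈ T, 0 < a p ∧ a p ≤ 1 ∧ 1 - a p ≤ x p) :
    1 - ∑ p ∈ T, x p ≤ ∏ p ∈ T, a p ∧ 0 ≤ ∏ p ∈ T, a p ∧ ∏ p ∈ T, a p ≤ 1 := by
  classical
  induction T using Finset.induction_on with
  | empty => simp
  | insert q T hq ih =>
    obtain ⟨i1, i2, i3⟩ := ih fun p hp => h p (mem_insert_of_mem hp)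
    obtain ⟨h1, h2, h3⟩ := h q (mem_insert_self _ _)
    rw [prod_insert hq, sum_insert hq]
    refine ⟨?_, mul_nonneg h1.le i2, mul_le_one₀ h2 i2 i3⟩
    nlinarith

/-- PROD: products of densities are bounded below -/
theorem prod : S_PROD := by
  classical
  intro C a ha
  obtain ⟨P, hP⟩ : ∃ P : ℕ, P = ⌈2 * |C|⌉₊ + 2 := ⟨_, rfl⟩
  have hP1 : 2 * |C| ≤ P := by
    have h1 := Nat.le_ceil (2 * |C|)
    rw [hP]
    push_cast
    linarith
  have hP0 : P ≠ 0 := by omega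
  have hPr : (0 : ℝ) < P := by
    have : 0 < P := Nat.pos_of_ne_zero hP0
    exact_mod_cast this
  obtain ⟨B, hB⟩ : ∃ B : Finset ℕ, B = (Finset.range (P + 1)).filter Nat.Prime := ⟨_, rfl⟩
  have hBp : ∀ p ∈ B, p.Prime := by
    intro p hp
    rw [hB, mem_filter] at hp
    exact hp.2
  have hB0 : 0 < ∏ p ∈ B, a p := Finset.prod_pos fun p hp => (ha p (hBp p hp)).1
  refine ⟨(∏ p ∈ B, a p) * (1 / 2), by positivity, ?_⟩
  intro S hS
  rw [← Finset.prod_filter_mul_prod_filter_not S (fun p => p ≤ P)]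
  have h1 : ∏ p ∈ B, a p ≤ ∏ p ∈ S with p ≤ P, a p := by
    have hsub : S.filter (fun p => p ≤ P) ⊆ B := by
      intro p hp
      rw [mem_filter] at hp
      rw [hB, mem_filter, mem_range]
      exact ⟨by omega, hS p hp.1⟩
    rw [← Finset.prod_sdiff hsub]
    have h2 : ∏ p ∈ B \ S.filter (fun p => p ≤ P), a p ≤ 1 :=
      Finset.prod_le_one (fun p hp => (ha p (hBp p (mem_sdiff.1 hp).1)).1.le)
        (fun p hp => (ha p (hBp p (mem_sdiff.1 hp).1)).2.1)
    have h3 : 0 ≤ ∏ p ∈ S with p ≤ P, a p :=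
      Finset.prod_nonneg fun p hp => (ha p (hS p (mem_filter.1 hp).1)).1.le
    nlinarith
  have h2 : 1 / 2 ≤ ∏ p ∈ S with ¬ p ≤ P, a p := by
    obtain ⟨T, hT⟩ : ∃ T : Finset ℕ, T = S.filter fun p => ¬ p ≤ P := ⟨_, rfl⟩
    rw [← hT]
    have h3 := (one_sub_le (a := a) (x := fun p => |C| * ((p : ℝ) ^ 2)⁻¹) T (by
      intro p hp
      rw [hT, mem_filter] at hp
      obtain ⟨h4, h5, h6⟩ := ha p (hS p hp.1)
      refine ⟨h4, h5, h6.trans ?_⟩
      rw [div_eq_mul_inv]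
      exact mul_le_mul_of_nonneg_right (le_abs_self C) (by positivity))).1
    rw [← Finset.mul_sum] at h3
    have h4 : ∑ p ∈ T, ((p : ℝ) ^ 2)⁻¹ ≤ (P : ℝ)⁻¹ := by
      have h5 : T ⊆ Ioc P (P + T.sup id) := by
        intro p hp
        have h6 : p ≤ T.sup id := Finset.le_sup (f := id) hp
        rw [hT, mem_filter] at hp
        rw [mem_Ioc]
        omega
      refine (Finset.sum_le_sum_of_subset_of_nonneg h5 fun p _ _ => by positivity).trans ?_
      refine (sum_Ioc_inv_sq_le_sub hP0 (Nat.le_add_right _ _)).trans ?_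
      have : (0 : ℝ) ≤ ((P + T.sup id : ℕ) : ℝ)⁻¹ := by positivity
      linarith
    have h5 : |C| * (P : ℝ)⁻¹ ≤ 1 / 2 := by
      rw [← div_eq_mul_inv, div_le_iff₀ hPr]
      linarith
    have h6 := mul_le_mul_of_nonneg_left h4 (abs_nonneg C)
    linarith
  exact mul_le_mul h1 h2 (by norm_num) (hB0.le.trans h1)

end Pool.Agent.Y988.KF
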